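import Pool.Agent.Lib.MP_b5021c_nt.IfaceK2

/-!
# MP_b5021c_nt, row STP: the step of the structure theorem
-/

namespace Pool.Agent.MP_b5021c_nt.H65

open Polynomial Filter Topology Pool.Agent.MP_b5021c_nt

/-- STP. The step (K6). -/
theorem stp (hLID : LidS) (hLSP : LspS) (hLNU : LnuS) (hLIR : LirS) (hHAT : HatS) : StpS := by
  intro ι _ _ D t θ hθ ht hne hG hpv
  obtain ⟨φ, D', a, b, hφ, hfree, hone, ha, hb, hBP, hev⟩ :=
    hLID ι D t θ (fun n => (hG n).free) (fun n => (hG n).one) ht hθ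
  have htφ : Tendsto (fun n => t (φ n)) atTop (𝓝 θ) := ht.comp hφ.tendsto_atTop
  have hspan : SpanK D' :=
    hLSP ι (fun n => D (φ n)) D' (fun n => a (φ n)) b (fun n => (hG (φ n)).spn)
      (fun n => (hG (φ n)).one.2.1) hone.2.1 (fun n S => ha (φ n) S) hb hev
  have huni : ¬ UniK D' :=
    hLNU ι (fun n => D (φ n)) D' (fun n => t (φ n)) θ (fun n => a (φ n)) b
      (fun n => (hG (φ n)).uni) (fun n => (hG (φ n)).one) (fun n => hpv (φ n)) hone htφ
      (fun n => hne (φ n)) (fun n S => ha (φ n) S) hb (fun n S => hBP (φ n) S) hev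
  have hirr : Irreducible (toA D') :=
    hLIR ι (fun n => D (φ n)) D' (fun n => t (φ n)) θ (fun n => a (φ n)) b
      (fun n => hG (φ n)) (fun n => hpv (φ n)) hfree hone htφ
      (fun n => hne (φ n)) (fun n S => ha (φ n) S) hb (fun n S => hBP (φ n) S) hev
  exact ⟨_, hHAT ι D' θ hfree hone hirr hspan huni⟩

end Pool.Agent.MP_b5021c_nt.H65
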